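import Pool.Agent.R466.Height

/-!
For every odd prime `q` and every positive integer `b`, the maximal height of a divisor of
`X ^ (2 * q ^ b) - 1` in `ℤ[X]` is exactly `2`.
-/

namespace Pool.Agent.Results.MP_0523aa_nt.HeightTwo

open Polynomial Finset Pool.Agent.R466

/-- `c` bounded version: coefficients are `0, 1, -1`. -/
def Flat (f : ℤ[X]) : Prop := ∀ k, (f.coeff k).natAbs ≤ 1

theorem E_one (q : ℕ) [Fact q.Prime] : cyclotomic q ℤ = E q (fun _ => 1) := by
  rw [cyclotomic_prime]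
  unfold E
  simp

theorem E_delta {q : ℕ} (hq : 0 < q) : (1 : ℤ[X]) = E q (fun r => if r = 0 then 1 else 0) := by
  unfold E
  have : ∀ r ∈ range q, (C (if r = 0 then (1 : ℤ) else 0) * X ^ r : ℤ[X]) =
      if r = 0 then 1 else 0 := by
    intro r _
    split_ifs with h
    · subst h; simp
    · simp
  rw [Finset.sum_congr rfl this, Finset.sum_ite_eq' (range q) 0, if_pos]
  exact Finset.mem_range.mpr hq

theorem prod_two {q : ℕ} [hq : Fact q.Prime] (h2 : q ≠ 2) :
    cyclotomic (2 * q) ℤ * cyclotomic q ℤ = ∑ i ∈ range q, X ^ (2 * i) := by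
  have hnd : ¬ 2 ∣ q := by
    intro h
    exact h2 ((Nat.prime_dvd_prime_iff_eq Nat.prime_two hq.out).mp h).symm
  have h := cyclotomic_expand_eq_cyclotomic_mul Nat.prime_two hnd ℤ
  rw [mul_comm 2 q, ← h, cyclotomic_prime, map_sum]
  refine Finset.sum_congr rfl fun i _ => ?_
  rw [map_pow, expand_X, ← pow_mul]

theorem E_neg {q : ℕ} [hq : Fact q.Prime] (h2 : q ≠ 2) :
    cyclotomic (2 * q) ℤ = E q (fun r => (-1) ^ r) := by
  have hodd : Odd q := hq.out.odd_of_ne_two h2
  have h1 := prod_two h2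
  have hE : E q (fun r => (-1) ^ r) = ∑ i ∈ range q, (-X : ℤ[X]) ^ i := by
    unfold E
    refine Finset.sum_congr rfl fun i _ => ?_
    rw [neg_pow (X : ℤ[X]) i]
    simp
  have g1 : (∑ i ∈ range q, (-X : ℤ[X]) ^ i) * (-X - 1) = (-X) ^ q - 1 := geom_sum_mul _ _
  have g2 : (∑ i ∈ range q, (X : ℤ[X]) ^ i) * (X - 1) = X ^ q - 1 := geom_sum_mul _ _
  have g3 : (∑ i ∈ range q, ((X : ℤ[X]) ^ 2) ^ i) * (X ^ 2 - 1) = (X ^ 2) ^ q - 1 :=
    geom_sum_mul _ _
  have g4 : (∑ i ∈ range q, ((X : ℤ[X]) ^ 2) ^ i) = ∑ i ∈ range q, (X : ℤ[X]) ^ (2 * i) :=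
    Finset.sum_congr rfl fun i _ => by rw [← pow_mul]
  rw [hodd.neg_pow] at g1
  have hcyc : cyclotomic q ℤ = ∑ i ∈ range q, (X : ℤ[X]) ^ i := cyclotomic_prime ℤ q
  have hne : (cyclotomic q ℤ) * ((X : ℤ[X]) ^ 2 - 1) ≠ 0 := by
    apply mul_ne_zero (cyclotomic_ne_zero q ℤ)
    exact (monic_X_pow_sub_C (1 : ℤ) two_ne_zero).ne_zero
  apply mul_right_cancel₀ hne
  rw [hE]
  have e1 : cyclotomic (2 * q) ℤ * (cyclotomic q ℤ * (X ^ 2 - 1)) = (X ^ 2) ^ q - 1 := by
    rw [← mul_assoc, h1, ← g4, g3]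
  have e2 : (∑ i ∈ range q, (-X : ℤ[X]) ^ i) * (cyclotomic q ℤ * (X ^ 2 - 1)) =
      (X ^ 2) ^ q - 1 := by
    rw [hcyc]
    calc (∑ i ∈ range q, (-X : ℤ[X]) ^ i) * ((∑ i ∈ range q, (X : ℤ[X]) ^ i) * (X ^ 2 - 1))
        = -(((∑ i ∈ range q, (-X : ℤ[X]) ^ i) * (-X - 1)) *
          ((∑ i ∈ range q, (X : ℤ[X]) ^ i) * (X - 1))) := by ring
      _ = -((-X ^ q - 1) * (X ^ q - 1)) := by rw [g1, g2]
      _ = (X ^ 2) ^ q - 1 := by ring
  rw [e1, e2]

theorem sum_even (k : ℕ) :
    E (2 * k + 1) (fun r => if Even r then 1 else 0) = ∑ i ∈ range (k + 1), X ^ (2 * i) := by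
  unfold E
  induction k with
  | zero => simp
  | succ k ih =>
    rw [show 2 * (k + 1) + 1 = 2 * k + 1 + 1 + 1 by ring, Finset.sum_range_succ,
      Finset.sum_range_succ, ih, Finset.sum_range_succ _ (k + 1)]
    have h1 : ¬ Even (2 * k + 1) := by simp
    have h2 : Even (2 * k + 2) := ⟨k + 1, by ring⟩
    beta_reduce
    rw [if_neg h1, if_pos h2]
    simp [show 2 * k + 2 = 2 * (k + 1) by ring]

theorem sum_odd (k : ℕ) :
    E (2 * k + 1) (fun r => if Even r then 0 else 1) = ∑ i ∈ range k, X ^ (2 * i + 1) := by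
  unfold E
  induction k with
  | zero => simp
  | succ k ih =>
    rw [show 2 * (k + 1) + 1 = 2 * k + 1 + 1 + 1 by ring, Finset.sum_range_succ,
      Finset.sum_range_succ, ih, Finset.sum_range_succ _ k]
    have h1 : ¬ Even (2 * k + 1) := by simp
    have h2 : Even (2 * k + 2) := ⟨k + 1, by ring⟩
    beta_reduce
    rw [if_neg h1, if_pos h2]
    simp

theorem both {q : ℕ} [hq : Fact q.Prime] (h2 : q ≠ 2) :
    cyclotomic q ℤ * cyclotomic (2 * q) ℤ =
      E q (fun r => if Even r then 1 else 0) + E q (fun r => if Even r then 0 else 1) * X ^ q := by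
  rw [mul_comm, prod_two h2]
  obtain ⟨k, hk⟩ := hq.out.odd_of_ne_two h2
  rw [hk, sum_even, sum_odd, show 2 * k + 1 = (k + 1) + k by ring, Finset.sum_range_add,
    Finset.sum_mul]
  congr 1
  refine Finset.sum_congr rfl fun i _ => ?_
  rw [← pow_add]
  congr 1
  ring

/-- One step of the digit recursion. -/
theorem flat_step {q : ℕ} [hq : Fact q.Prime] (h2 : q ≠ 2) (s t : Prop) [Decidable s]
    [Decidable t] {G : ℤ[X]} (hG : Flat G) :
    Flat (((if s then cyclotomic q ℤ else 1) * (if t then cyclotomic (2 * q) ℤ else 1)) *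
      expand ℤ q G) := by
  have hpos : 0 < q := hq.out.pos
  intro N
  by_cases hs : s <;> by_cases ht : t
  · rw [if_pos hs, if_pos ht, both h2]
    have hX : (X : ℤ[X]) ^ q * expand ℤ q G = expand ℤ q (X * G) := by
      rw [map_mul, expand_X]
    rw [add_mul, mul_assoc, hX, coeff_add, coeff_E_mul_expand hpos, coeff_E_mul_expand hpos]
    by_cases hr : Even (N % q)
    · rw [if_pos hr, if_pos hr, one_mul, zero_mul, add_zero]
      exact hG _
    · rw [if_neg hr, if_neg hr, one_mul, zero_mul, zero_add]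
      rcases Nat.eq_zero_or_pos (N / q) with h0 | h0
      · rw [h0]; simp
      · obtain ⟨m, hm⟩ : ∃ m, N / q = m + 1 := ⟨N / q - 1, by omega⟩
        rw [hm, coeff_X_mul]
        exact hG _
  · rw [if_pos hs, if_neg ht, mul_one, E_one, coeff_E_mul_expand hpos, one_mul]
    exact hG _
  · rw [if_neg hs, if_pos ht, one_mul, E_neg h2, coeff_E_mul_expand hpos, Int.natAbs_mul]
    have : ((-1 : ℤ) ^ (N % q)).natAbs = 1 := by
      rw [Int.natAbs_pow]; simp
    rw [this, one_mul]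
    exact hG _
  · rw [if_neg hs, if_neg ht, mul_one, E_delta hpos, coeff_E_mul_expand hpos]
    by_cases hr : N % q = 0
    · rw [if_pos hr, one_mul]; exact hG _
    · rw [if_neg hr, zero_mul]; simp

theorem flat_prod {q : ℕ} [hq : Fact q.Prime] (h2 : q ≠ 2) (b : ℕ) (s t : ℕ → Prop)
    [DecidablePred s] [DecidablePred t] :
    Flat (∏ i ∈ range b, ((if s i then cyclotomic (q ^ (i + 1)) ℤ else 1) *
      (if t i then cyclotomic (2 * q ^ (i + 1)) ℤ else 1))) := by
  induction b generalizing s t with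
  | zero =>
    intro k
    simp only [Finset.range_zero, Finset.prod_empty, coeff_one]
    split_ifs <;> simp
  | succ b ih =>
    rw [Finset.prod_range_succ']
    have h := ih (fun i => s (i + 1)) (fun i => t (i + 1))
    have hstep := flat_step h2 (s 0) (t 0) h
    have key : (∏ k ∈ range b, ((if s (k + 1) then cyclotomic (q ^ (k + 1 + 1)) ℤ else 1) *
        (if t (k + 1) then cyclotomic (2 * q ^ (k + 1 + 1)) ℤ else 1))) =
        expand ℤ q (∏ i ∈ range b, ((if s (i + 1) then cyclotomic (q ^ (i + 1)) ℤ else 1) *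
      (if t (i + 1) then cyclotomic (2 * q ^ (i + 1)) ℤ else 1))) := by
      rw [map_prod]
      refine Finset.prod_congr rfl fun i _ => ?_
      rw [map_mul]
      congr 1
      · split_ifs
        · rw [cyclotomic_expand_eq_cyclotomic hq.out (dvd_pow_self q (Nat.succ_ne_zero i)),
            ← pow_succ]
        · simp
      · split_ifs
        · rw [cyclotomic_expand_eq_cyclotomic hq.out
            (Dvd.dvd.mul_left (dvd_pow_self q (Nat.succ_ne_zero i)) 2), mul_assoc, ← pow_succ]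
        · simp
    rw [key, mul_comm]
    simpa using hstep

theorem height_X_sub_one_mul {F : ℤ[X]} (hF : Flat F) :
    ∀ k, (((X - 1) * F).coeff k).natAbs ≤ 2 := by
  intro k
  rw [sub_mul, one_mul, coeff_sub]
  rcases k with _ | k
  · have := hF 0
    simp only [coeff_X_mul_zero]
    omega
  · rw [coeff_X_mul]
    have h1 := hF k
    have h2 := hF (k + 1)
    omega

theorem height_X_add_one_mul {F : ℤ[X]} (hF : Flat F) :
    ∀ k, (((X + 1) * F).coeff k).natAbs ≤ 2 := by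
  intro k
  rw [add_mul, one_mul, coeff_add]
  rcases k with _ | k
  · have := hF 0
    simp only [coeff_X_mul_zero]
    omega
  · rw [coeff_X_mul]
    have h1 := hF k
    have h2 := hF (k + 1)
    omega

theorem height_X_sq_sub_one_mul {F : ℤ[X]} (hF : Flat F) :
    ∀ k, (((X - 1) * (X + 1) * F).coeff k).natAbs ≤ 2 := by
  intro k
  have h : (X - 1) * (X + 1) * F = X * (X * F) - F := by ring
  rw [h, coeff_sub]
  rcases k with _ | _ | k
  · have := hF 0
    simp only [coeff_X_mul_zero]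
    omega
  · have := hF (0 + 1)
    rw [coeff_X_mul, coeff_X_mul_zero]
    omega
  · rw [coeff_X_mul, coeff_X_mul]
    have h1 := hF k
    have h2 := hF (k + 1 + 1)
    omega

theorem upper {q : ℕ} [hq : Fact q.Prime] (h2 : q ≠ 2) (b : ℕ) {f : ℤ[X]}
    (hf : f ∣ X ^ (2 * q ^ b) - 1) : height f ≤ 2 := by
  have hn : 0 < 2 * q ^ b := by have := hq.out.pos; positivity
  obtain ⟨t, ht, heq⟩ := exists_height_eq_of_dvd hn hf
  rw [heq, prod_cyclotomic_subset Nat.prime_two hq.out (Ne.symm h2) b ht, ← Finset.prod_mul_distrib,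
    Finset.prod_range_succ']
  have hF := flat_prod h2 b (fun i => q ^ (i + 1) ∈ t) (fun i => 2 * q ^ (i + 1) ∈ t)
  set F := ∏ i ∈ range b, ((if q ^ (i + 1) ∈ t then cyclotomic (q ^ (i + 1)) ℤ else 1) *
      (if 2 * q ^ (i + 1) ∈ t then cyclotomic (2 * q ^ (i + 1)) ℤ else 1)) with hFdef
  rw [height_le_iff]
  have c1 : cyclotomic (q ^ 0) ℤ = X - 1 := by rw [pow_zero, cyclotomic_one]
  have c2 : cyclotomic (2 * q ^ 0) ℤ = X + 1 := by rw [pow_zero, mul_one, cyclotomic_two]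
  rw [c1, c2]
  by_cases hs : q ^ 0 ∈ t <;> by_cases ht : 2 * q ^ 0 ∈ t
  · rw [if_pos hs, if_pos ht, mul_comm]
    exact height_X_sq_sub_one_mul hF
  · rw [if_pos hs, if_neg ht, mul_one, mul_comm]
    exact height_X_sub_one_mul hF
  · rw [if_neg hs, if_pos ht, one_mul, mul_comm]
    exact height_X_add_one_mul hF
  · rw [if_neg hs, if_neg ht, mul_one, mul_one]
    intro k
    exact (hF k).trans one_le_two

theorem lower {q : ℕ} [hq : Fact q.Prime] (h2 : q ≠ 2) {b : ℕ} (hb : 0 < b) :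
    ∃ f : ℤ[X], f ∣ X ^ (2 * q ^ b) - 1 ∧ height f = 2 := by
  have hn : 0 < 2 * q ^ b := by have := hq.out.pos; positivity
  have hsub : ({2, q} : Finset ℕ) ⊆ (2 * q ^ b).divisors := by
    intro d hd
    simp only [Finset.mem_insert, Finset.mem_singleton] at hd
    rw [Nat.mem_divisors]
    refine ⟨?_, hn.ne'⟩
    rcases hd with rfl | rfl
    · exact dvd_mul_right _ _
    · exact Dvd.dvd.mul_left (dvd_pow_self d hb.ne') 2
  refine ⟨∏ d ∈ {2, q}, cyclotomic d ℤ, prod_cyclotomic_dvd hn hsub, ?_⟩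
  apply le_antisymm (upper h2 b (prod_cyclotomic_dvd hn hsub))
  have hc : ((∏ d ∈ {2, q}, cyclotomic d ℤ).coeff 1) = 2 := by
    rw [Finset.prod_pair (Ne.symm h2), cyclotomic_two, cyclotomic_prime, add_mul, one_mul,
      coeff_add, coeff_X_mul, finsetSum_coeff, finsetSum_coeff]
    have h0 : ∀ n, n < q → (∑ i ∈ range q, ((X : ℤ[X]) ^ i).coeff n) = 1 := by
      intro n hn
      simp only [coeff_X_pow]
      rw [Finset.sum_ite_eq (range q) n, if_pos (Finset.mem_range.mpr hn)]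
    rw [h0 0 hq.out.pos, h0 1 hq.out.one_lt]
    norm_num
  have := natAbs_coeff_le_height (∏ d ∈ {2, q}, cyclotomic d ℤ) 1
  rw [hc] at this
  simpa using this

/-- For every odd prime `q` and every `b ≥ 1`, the largest height of a divisor of
`X ^ (2 q ^ b) - 1` in `ℤ[X]` is `2`, i.e. `B(2 q ^ b) = 2`. -/
theorem result (q : ℕ) (hq : q.Prime) (h2 : q ≠ 2) (b : ℕ) (hb : 0 < b) :
    IsGreatest {h : ℕ | ∃ f : ℤ[X], f ∣ X ^ (2 * q ^ b) - 1 ∧ height f = h} 2 := by
  have : Fact q.Prime := ⟨hq⟩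
  refine ⟨lower h2 hb, ?_⟩
  rintro h ⟨f, hf, rfl⟩
  exact upper h2 b hf

end Pool.Agent.Results.MP_0523aa_nt.HeightTwo
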